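import Mathlib
import Pool.Agent.Lib.helper12.Cover

set_option autoImplicit false

open MeasureTheory

namespace Pool.Agent.Results.MP_09df17_pr.Full

/-- Mean-value property for simple random walk. -/
def Harmonic {V : Type} (G : SimpleGraph V) [G.LocallyFinite] (f : V → ℝ) : Prop :=
  ∀ x, f x = (∑ y ∈ G.neighborFinset x, f y) / G.degree x

open Pool.Agent.Lib.helper12 Srw Cover Bfly Walk in
theorem result : ∃ (V : Type) (_ : MeasurableSpace V) (_ : DiscreteMeasurableSpace V)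
    (G : SimpleGraph V) (_ : G.LocallyFinite) (hd : ∀ x, 0 < G.degree x) (_ : AddAction ℤ V)
    (D : Set V), G.Connected ∧ (∀ x, G.degree x ≤ 4) ∧
    (∀ (k : ℤ) x y, G.Adj (k +ᵥ x) (k +ᵥ y) ↔ G.Adj x y) ∧ (∀ (k : ℤ) (x : V), k +ᵥ x = x → k = 0) ∧
    (∀ h : V → ℝ, Harmonic G h → (∀ (k : ℤ) x, h (k +ᵥ x) = h x) → ∀ x y, h x = h y) ∧
    (∀ x, ∃! d, d ∈ D ∧ ∃ k : ℤ, k +ᵥ d = x) ∧ (G.induce D).Connected ∧
    (∀ v, ∀ᵐ ω ∂srw G hd v, ∀ k : ℤ, {n | ∃ d ∈ D, ω n = k +ᵥ d}.Infinite) ∧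
    ∃ h : V → ℝ, Harmonic G h ∧ (∃ C, ∀ x, |h x| ≤ C) ∧ ∃ x y, h x ≠ h y := by
  let A : AddAction ℤ (ℤ × Bfly.V) :=
    { vadd := fun t p => (t + p.1, p.2)
      zero_vadd := fun p => Prod.ext (zero_add _) rfl
      add_vadd := fun a b p => Prod.ext (add_assoc _ _ _) rfl }
  let _ : MeasurableSpace (ℤ × Bfly.V) := ⊤
  have : DiscreteMeasurableSpace (ℤ × Bfly.V) := ⟨fun _ => trivial⟩
  refine ⟨ℤ × Bfly.V, ⊤, this, Cover.G, inferInstance, hd, A, D, connG,
    fun x => degG x ▸ (deg _).2, fun t x y => ?_, fun t x h => ?_, fun h a b x y => ?_,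
    fun x => ⟨(K (k x.2.n), x.2), ⟨rfl, x.1 - K (k x.2.n), Prod.ext (sub_add_cancel _ _) rfl⟩, ?_⟩,
    (SimpleGraph.connected_iff_exists_forall_reachable _).2 ⟨ι (z 0), fun p => ?_⟩, fun v => ?_, ?_⟩
  · exact and_congr_right fun _ => (by rw [add_assoc, add_right_inj] :
      t + y.1 = t + x.1 + volt x.2 y.2 ↔ _)
  · exact add_eq_right.1 (congrArg Prod.fst h)
  · have c : ∀ p : ℤ × Bfly.V, h p = h (0, p.2) := fun p =>
      (congrArg h (show p = (p.1 + 0, p.2) by simp)).trans (b p.1 (0, p.2))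
    have d := const (fun x => h (0, x)) fun x => ((a _).trans (TG _ _)).trans
      (congrArg (TR H · x) (funext fun y => c _))
    rw [c x, c y, d, d y.2]
  · rintro d ⟨h, t, rfl⟩
    exact Prod.ext h rfl
  · rw [show p = ι p.1.2 from Subtype.ext (Prod.ext p.2 rfl)]
    exact (connD _).symm
  · obtain ⟨U, U0, hU⟩ := spine
    filter_upwards [adj hd v, Srw.visits hd v (fun p => U p.2) {p | p.2 ∈ Set.range z}
      (fun p => U0 _) fun p => by rw [TG]; exact hU p.2, ae_all_iff.2 fun N => by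
        obtain ⟨c, c0, hc⟩ := lev N
        exact Srw.visits hd v (fun p => c * min (ψ p.2.n) (ψ N)) {p | p.2.n = N}
          (fun p => mul_nonneg c0.le (le_min (ψ_pos _).le (ψ_pos _).le))
          fun p => by rw [TG]; exact hc p.2] with ω a b c t
    exact (often ω a b c t).mono fun n h => ⟨(K (k (ω n).2.n), (ω n).2), rfl, Prod.ext h rfl⟩
  · obtain ⟨h, a, b, c⟩ := nonL
    exact ⟨h, a, ⟨1, b⟩, c⟩

end Pool.Agent.Results.MP_09df17_pr.Full
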